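import Mathlib
import Pool.Agent.Y146.HW.Recip
import Pool.Agent.Y146.HW.EndL

/-!
# Semisimplicity of Frobenius from Hasse-Witt and Hodge numbers, in all degrees

Let `X` be smooth projective over the field with `q = p^a` elements and `F` the Frobenius on
`H^r(X̄, ℚ̄_ℓ)`, divided by a power `q^e` such that the Hodge numbers `h^{i, r - i}` vanish for `i < e` (for instance
`e = 0`), so that the weight is `w = r - 2e`. Let `h i` be the Hodge number `h^{e + i, r - e - i}` and
`P` the characteristic polynomial, which has integral coefficients. The *Hasse-Witt polynomial* `W` has degree `h 0`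
and is `P` modulo `p` divided by a power of `T`; for `e = 0` (and torsion free crystalline cohomology) it is the
characteristic polynomial of the Frobenius on `H^r(X, 𝓞_X)` (Katz's congruence formula). The number of unit roots
is `s ≤ h 0`. We bound the multiplicities and the Jordan blocks of all eigenvalues which are not divisible by `q^c`.
-/

set_option autoImplicit false

open Polynomial Module

namespace Pool.Agent.Results.MP_93fb11_ag.HasseWitt

/-- The cohomology group `V = H^r(X̄, K)`, `K = ℚ̄_ℓ`, of a smooth projective variety `X` over the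
field with `q = p ^ a` elements (`ℓ ≠ p`), with the Frobenius divided by `q^e`, `w = r - 2e`, and its known
properties. -/
structure Cohomology (p a w : ℕ) (K V : Type*) [Field K] [AddCommGroup V] [Module K V]
    [Module.Finite K V] where
  /-- the Frobenius, divided by `q^e` -/
  F : Module.End K V
  /-- its characteristic polynomial -/
  P : ℤ[X]
  /-- the Hodge numbers `h i = h^{e + i, r - e - i}` -/
  h : ℕ → ℕ
  /-- `h 0` is at most the Betti number -/
  h_le : h 0 ≤ P.natDegree
  /-- the characteristic polynomial has integral coefficients (Deligne, Katz-Messing) -/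
  charpoly_F : F.charpoly = P.map (Int.castRingHom K)
  /-- the Riemann hypothesis (Deligne) -/
  weight : ∀ z : ℂ, aeval z P = 0 → ‖z‖ ^ 2 = ((p : ℝ) ^ a) ^ w
  /-- the Newton polygon lies above the Hodge polygon (Mazur, Ogus), whose value at `j` is the maximum
  over `c` of `c j - ∑_{i < c} (c - i) h i` -/
  newton_hodge : ∀ c j, j ≤ P.natDegree →
    ((p : ℤ) ^ a) ^ (c * j - ∑ i ∈ Finset.range c, (c - i) * h i) ∣ P.coeff (P.natDegree - j)

variable {p a w : ℕ} {K V : Type*} [Field K] [AddCommGroup V] [Module K V] [Module.Finite K V]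

/-- The multiplicity of the eigenvalue `α` (the dimension of the generalised eigenspace). -/
noncomputable def mult (F : Module.End K V) (α : K) : ℕ := finrank K (F.maxGenEigenspace α)

/-- `F` is semisimple at `α`: the generalised eigenspace is the eigenspace. -/
def SemisimpleAt (F : Module.End K V) (α : K) : Prop := F.maxGenEigenspace α = F.eigenspace α

/-- `α` is divisible by `p^b`: `α / p^b` is an algebraic integer. -/
def Divisible (p b : ℕ) (α : K) : Prop := IsIntegral ℤ (α / (p : K) ^ b)

/-- The number of unit roots of `P` (roots of slope `0`): the number of nonzero roots of `P` modulo `p`, with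
multiplicities. -/
noncomputable def unitRoots (X : Cohomology p a w K V) : ℕ :=
  X.P.natDegree - (X.P.map (Int.castRingHom (ZMod p))).natTrailingDegree

/-- The nonzero roots of `P` modulo `p` have multiplicity at most `m`. -/
def ModPMult [Fact p.Prime] (X : Cohomology p a w K V) (m : ℕ) : Prop :=
  ∀ ρ : AlgebraicClosure (ZMod p), ρ ≠ 0 →
    rootMultiplicity ρ (X.P.map (Int.castRingHom (AlgebraicClosure (ZMod p)))) ≤ m

/-- `W` is the Hasse-Witt polynomial: `P = T^(b - h 0) W` modulo `p`, `b = dim V`. -/
def IsHasseWitt (X : Cohomology p a w K V) (W : (ZMod p)[X]) : Prop :=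
  X.P.map (Int.castRingHom (ZMod p)) = Polynomial.X ^ (X.P.natDegree - X.h 0) * W

/-- The number `a (∑_{i < c} (c - i) h i - c s)`, `s` the number of unit roots. For `c = 1` it is
`a (h 0 - s)`; if `s = h 0` it is `a ∑_{0 < i < c} (c - i) h i`. -/
noncomputable def defect (X : Cohomology p a w K V) (c : ℕ) : ℕ :=
  a * (∑ i ∈ Finset.range c, (c - i) * X.h i - c * unitRoots X)

/-- The nonzero roots of `P` modulo `p` are simple and the defect is at most one. -/
def Simple [Fact p.Prime] (X : Cohomology p a w K V) (c : ℕ) : Prop :=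
  ModPMult X 1 ∧ defect X c ≤ 1

/-- **Semisimplicity of Frobenius from Hasse-Witt and Hodge numbers.** -/
theorem result [Fact p.Prime] (ha : 0 < a) [CharZero K] [IsAlgClosed K]
    (X : Cohomology p a w K V) (c : ℕ) :
    -- multiplicities and sizes of Jordan blocks of the eigenvalues not divisible by `q^c`
    (∀ m, ModPMult X m → ∀ α, ¬ Divisible p (a * c) α →
      mult X.F α ≤ max m (defect X c) ∧
      ∀ x ∈ X.F.maxGenEigenspace α,
        ((X.F - α • (1 : Module.End K V)) ^ (max m (defect X c))) x = 0) ∧
    (∀ Z : Finset K, (∀ z ∈ Z, X.F.HasEigenvalue z ∧ ¬ Divisible p (a * c) z) →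
      (∀ z ∈ Z, ∀ z' ∈ Z, minpoly ℤ z = minpoly ℤ z' → z = z') →
      ∑ z ∈ Z, mult X.F z ≤ unitRoots X + defect X c) ∧
    -- separable Hasse-Witt polynomials
    (∀ W, IsHasseWitt X W → W.Separable →
      (a = 1 ∨ W.coeff 0 ≠ 0 → Simple X 1) ∧
      (W.coeff 0 ≠ 0 → a * ∑ i ∈ Finset.range c, (c - i) * X.h i ≤ a * c * X.h 0 + 1 →
        Simple X c)) ∧
    -- the eigenvalues not divisible by `q^c` are simple, over all finite extensions `F` is semisimple at them,
    -- and there the endomorphisms commuting with `F` are the polynomials in `F`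
    (Simple X c →
      (∀ α, ¬ Divisible p (a * c) α → mult X.F α ≤ 1) ∧
      (∀ n, 0 < n → ∀ β, ¬ Divisible p (a * c * n) β → SemisimpleAt (X.F ^ n) β) ∧
      (∀ s : Finset K, (∀ α ∈ s, ¬ Divisible p (a * c) α) → ∀ T : Module.End K V,
        Commute T X.F → ∃ Q : K[X], ∀ x ∈ ⨆ α ∈ s, X.F.maxGenEigenspace α, T x = aeval X.F Q x)) ∧
    -- if `w = 2 c`, only the eigenvalues `q^c` times a root of unity are divisible by `q^c`
    (w = 2 * c → ∀ α, X.F.HasEigenvalue α →
      (Divisible p (a * c) α ↔ ∃ m, 0 < m ∧ α ^ m = ((p : K) ^ (a * c)) ^ m)) ∧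
    -- semisimplicity on the whole group
    (Simple X c → (w < 2 * c ∨ (0 < c ∧ Odd (a * w) ∧ (finrank K V ≤ 2 * unitRoots X + 3 ∨
        ∃ S : Finset K, (∀ z ∈ S, ¬ Divisible p (a * c) z) ∧
          finrank K V ≤ ∑ z ∈ S, mult X.F z + 3))) →
      ∀ n, 0 < n → ∀ β, SemisimpleAt (X.F ^ n) β) := by
  classical
  have hp : p.Prime := Fact.out
  have hPm : X.P.Monic := by
    apply monic_of_injective (f := Int.castRingHom K) (RingHom.injective_int _)
    rw [← X.charpoly_F]
    exact LinearMap.charpoly_monic _
  have hpK : (p : K) ≠ 0 := by exact_mod_cast hp.ne_zero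
  have hmult : ∀ α, mult X.F α = W534.FS.mu X.P α := by
    intro α
    unfold mult W534.FS.mu
    rw [LinearMap.finrank_maxGenEigenspace_eq, X.charpoly_F]
  have hroot : ∀ α, 0 < mult X.F α → aeval α X.P = 0 := by
    intro α h
    rw [hmult] at h
    unfold W534.FS.mu at h
    have h1 := (rootMultiplicity_pos (hPm.map _).ne_zero).1 h
    rw [IsRoot, eval_map] at h1
    rw [aeval_def]; exact h1
  have hroot' : ∀ α, X.F.HasEigenvalue α → aeval α X.P = 0 := by
    intro α h
    rw [Module.End.hasEigenvalue_iff_isRoot_charpoly, X.charpoly_F, IsRoot, eval_map] at h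
    rw [aeval_def]; exact h
  have hus : unitRoots X = Y146.HW.ur p X.P := rfl
  set D : ℕ := ∑ i ∈ Finset.range c, (c - i) * X.h i with hD
  have hcv := Y146.HW.cv_ge' (D := D) (c := c) hp hPm (X.newton_hodge c)
  have hcs : a * (c * unitRoots X) ≤ a * D := by
    have h1 := W534.FS.cv_le_td (a := a * c) hp hPm
    have h2 := Y146.HW.ur_add hp hPm
    rw [← hus] at h2
    have h3 : a * c * X.P.natDegree = a * (c * unitRoots X) + a * c * W534.FS.td p X.P := by
      rw [← h2]; ring
    omega
  have hdef : defect X c + a * (c * unitRoots X) = a * D := by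
    unfold defect
    rw [← mul_add, Nat.sub_add_cancel (Nat.le_of_mul_le_mul_left hcs ha)]
  have hacs : a * c * Y146.HW.ur p X.P = a * (c * unitRoots X) := by rw [← hus]; ring
  have hA : ∀ m, ModPMult X m → ∀ α, ¬ Divisible p (a * c) α →
      mult X.F α ≤ max m (defect X c) := by
    intro m hm α hα
    rcases Nat.eq_zero_or_pos (mult X.F α) with h0 | h0
    · rw [h0]; exact Nat.zero_le _
    rcases Y146.HW.mult_le_gen hPm (hroot α h0) hα hcv with ⟨ρ, hρ, h1⟩ | h1
    · rw [hmult]
      exact (h1.trans (hm ρ hρ)).trans (le_max_left _ _)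
    · rw [hmult]
      exact le_trans (by omega) (le_max_right _ _)
  have hS : ∀ α, mult X.F α ≤ 1 → SemisimpleAt X.F α := by
    intro α h
    apply W534.FS.eig_eq
    intro y v hy hv
    by_contra hv0
    have h1 := W534.FS.two_le_of_jordan X.F hy hv hv0
    unfold mult at h
    omega
  have hB : Simple X c → ∀ α, ¬ Divisible p (a * c) α → mult X.F α ≤ 1 := by
    intro hs α hα
    exact (hA 1 hs.1 α hα).trans (max_le le_rfl hs.2)
  have hsum : ∀ s : Finset K, ∑ z ∈ s, mult X.F z ≤ finrank K V := by
    intro s
    have := Y146.HW.dim_count X.F 0 0 s (by intro α _; simp)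
    unfold mult
    omega
  refine ⟨fun m hm α hα => ⟨hA m hm α hα, Y146.HW.pow_kills X.F α (hA m hm α hα)⟩, ?_, ?_, ?_, ?_,
    ?_⟩
  · intro Z hZ hd
    have h1 := Y146.HW.sum_le_gen hp hPm Z (fun z hz => hroot' z (hZ z hz).1) hd
      (fun z hz => (hZ z hz).2) hcv
    have e1 : ∑ z ∈ Z, mult X.F z = ∑ z ∈ Z, W534.FS.mu X.P z :=
      Finset.sum_congr rfl fun z _ => hmult z
    rw [e1]
    omega
  · intro W hW hsep
    constructor
    · intro h1
      obtain ⟨h2, h3⟩ := Y146.HW.hw_sep (a := a) hPm X.h_le hW hsep h1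
      refine ⟨h2, ?_⟩
      unfold defect
      rw [← hus] at h3
      simp only [Finset.sum_range_one, Nat.sub_zero, one_mul]
      rw [Nat.mul_sub]
      omega
    · intro h1 h4
      obtain ⟨h2, -⟩ := Y146.HW.hw_sep (a := 1) hPm X.h_le hW hsep (Or.inr h1)
      refine ⟨h2, ?_⟩
      have h3 : X.h 0 ≤ unitRoots X := by
        have h5 := Y146.HW.hw_ur hPm X.h_le hW h1
        rw [hus, h5]
      have h6 : a * c * X.h 0 ≤ a * (c * unitRoots X) := by
        rw [← mul_assoc]; exact Nat.mul_le_mul_left _ h3
      omega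
  · intro hs
    refine ⟨hB hs, ?_, ?_⟩
    · intro n hn β hβ
      apply Y146.HW.maxGen_pow_eq
      intro α hα
      apply hS α
      apply hB hs
      intro hd
      apply hβ
      unfold Divisible at hd ⊢
      rw [← hα, pow_mul, ← div_pow]
      exact hd.pow n
    · intro s hs' T hT
      exact Y146.HW.commutant X.F s (fun α hα => hB hs α (hs' α hα)) T hT
  · intro hw α hα
    constructor
    · intro hd
      by_contra hno
      push Not at hno
      apply W534.FS.not_integral (p := p) (a := a * c) hp (P := X.P) _ (hroot' α hα) hno hd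
      intro z hz
      have h1 := X.weight z hz
      have h2 : ‖z‖ ^ 2 = ((p : ℝ) ^ (a * c)) ^ 2 := by
        rw [h1, hw]; ring
      exact (pow_left_inj₀ (norm_nonneg _) (by positivity) two_ne_zero).1 h2
    · rintro ⟨m, hm, h⟩
      have h4 : (α / (p : K) ^ (a * c)) ^ m = 1 := by
        rw [div_pow, h, div_self]
        exact pow_ne_zero _ (pow_ne_zero _ hpK)
      exact IsIntegral.of_pow hm (by rw [h4]; exact isIntegral_one)
  · intro hs hw n hn β
    apply Y146.HW.maxGen_pow_eq
    intro α _
    apply hS α
    by_cases hα : Divisible p (a * c) α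
    swap
    · exact hB hs α hα
    by_contra hlt
    push Not at hlt
    have hz := hroot α (by omega)
    rcases hw with hw | ⟨hc, hodd, hw⟩
    · exact Y146.HW.nondiv_weight hp ha hw hPm X.weight hz hα
    obtain ⟨S, hSn, hSd⟩ : ∃ S : Finset K, (∀ z ∈ S, ¬ Divisible p (a * c) z) ∧
        finrank K V ≤ ∑ z ∈ S, mult X.F z + 3 := by
      rcases hw with hw | hw
      · have hw0 : 0 < w := by
          rcases Nat.eq_zero_or_pos w with h | h
          · rw [h, mul_zero] at hodd
            exact absurd hodd (by decide)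
          · exact h
        obtain ⟨S, h1, h2⟩ := Y146.HW.two_ur_le (K := K) hp ha hw0 hPm X.weight
        refine ⟨S, fun z hz hd => (h1 z hz).2 ?_, ?_⟩
        · obtain ⟨c', rfl⟩ : ∃ c', c = c' + 1 := ⟨c - 1, by omega⟩
          have h5 : z / (p : K) ^ a = (p : K) ^ (a * c') * (z / (p : K) ^ (a * (c' + 1))) := by
            rw [mul_add, mul_one, pow_add]
            field_simp
          rw [h5]
          exact ((isIntegral_natCast p).pow _).mul hd
        · have e1 : ∑ z ∈ S, mult X.F z = ∑ z ∈ S, W534.FS.mu X.P z :=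
            Finset.sum_congr rfl fun z _ => hmult z
          rw [e1]
          rw [← hus] at h2
          omega
      · exact hw
    obtain ⟨α', h1, h2, h3⟩ := Y146.HW.exists_conj_odd hp hodd hPm X.weight hz
    have hi : IsIntegral ℤ α := W534.FS.integral_of_root hPm hz
    have hα' : Divisible p (a * c) α' := Y146.HW.conj_div hp hi h2 hα
    have h4 : α ∉ S := fun h => hSn α h hα
    have h5 : α' ∉ insert α S := by
      rw [Finset.mem_insert, not_or]
      exact ⟨h1, fun h => hSn α' h hα'⟩
    have h6 := hsum (insert α' (insert α S))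
    rw [Finset.sum_insert h5, Finset.sum_insert h4] at h6
    rw [← hmult, ← hmult] at h3
    omega

end Pool.Agent.Results.MP_93fb11_ag.HasseWitt
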