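import Mathlib
import Pool.Agent.Y218.NPDefs
import Pool.Agent.Y218.NPe

/-!
# Semisimplicity of Frobenius on the whole of `H^r` from the slopes up to the middle

Let `X` be smooth projective over the field with `q = p^a` elements, `F` the Frobenius on
`H^w(X̄, ℚ̄_ℓ)`, `P` its characteristic polynomial. The Newton polygon of `P` is symmetric, with
middle slope `w/2`. We bound the multiplicities of all eigenvalues by those of the roots of the
residual polynomials modulo `p` of the slopes at most `w/2`, and those of the eigenvalues not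
divisible by `p^b` by the slopes less than `b`. If these residual polynomials have no multiple
roots, the Frobenius is semisimple on `H^w`, over all finite extensions.
-/

set_option autoImplicit false

open Polynomial Module W534.FS Pool.Agent.Y218.NP

namespace Pool.Agent.Results.MP_93fb11_ag.MiddleSlope

/-- The cohomology group `V = H^w(X̄, K)`, `K = ℚ̄_ℓ`, of a smooth projective variety `X` over the
field with `q = p ^ a` elements (`ℓ ≠ p`), with the Frobenius and its known properties. -/
structure FrobH (p a w : ℕ) (K V : Type*) [Field K] [AddCommGroup V] [Module K V]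
    [Module.Finite K V] where
  /-- the Frobenius -/
  F : Module.End K V
  /-- its characteristic polynomial -/
  P : ℤ[X]
  /-- the characteristic polynomial has integral coefficients (Deligne) -/
  charpoly_F : F.charpoly = P.map (Int.castRingHom K)
  /-- the Riemann hypothesis (Deligne) -/
  weight : ∀ z : ℂ, aeval z P = 0 → ‖z‖ ^ 2 = ((p : ℝ) ^ a) ^ w

variable {p a w : ℕ} {K V : Type*} [Field K] [AddCommGroup V] [Module K V] [Module.Finite K V]

/-- The multiplicity of the eigenvalue `α` (the dimension of the generalised eigenspace). -/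
noncomputable def mult (F : Module.End K V) (α : K) : ℕ := finrank K (F.maxGenEigenspace α)

/-- `F` is semisimple at `α`: the generalised eigenspace is the eigenspace. -/
def SemisimpleAt (F : Module.End K V) (α : K) : Prop := F.maxGenEigenspace α = F.eigenspace α

/-- `α` is divisible by `p^b`: `α / p^b` is an algebraic integer. -/
def Divisible (p b : ℕ) (α : K) : Prop := IsIntegral ℤ (α / (p : K) ^ b)

/-- The residual polynomials of the slopes `r / s ≤ a w / 2` of `P` have no nonzero roots of
multiplicity more than `m`. (For the valuation with `v(q) = 1` these are the slopes at most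
`w / 2`.) -/
def HalfMult (X : FrobH p a w K V) [Fact p.Prime] (m : ℕ) : Prop :=
  ∀ r s, Nat.Coprime r s → 0 < s → 2 * r ≤ a * w * s → ∀ R, IsResidual p r s X.P R →
    ∀ ρ : AlgebraicClosure (ZMod p), ρ ≠ 0 →
      rootMultiplicity ρ (R.map (algebraMap (ZMod p) (AlgebraicClosure (ZMod p)))) ≤ m

/-- **Semisimplicity of Frobenius from the slopes up to the middle.** -/
theorem result [Fact p.Prime] [CharZero K] [IsAlgClosed K] (X : FrobH p a w K V) :
    -- (1) multiplicities and Jordan blocks of all eigenvalues
    (∀ m, HalfMult X m → ∀ α, mult X.F α ≤ m ∧ ∀ x ∈ X.F.maxGenEigenspace α,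
      ((X.F - α • (1 : Module.End K V)) ^ m) x = 0) ∧
    (∀ m, (∀ r s, Nat.Coprime r s → 0 < s → 2 * r ≤ a * w * s → len p r s X.P ≤ m * s) →
      HalfMult X m) ∧
    -- (2) semisimplicity on the whole of `H^w`, over all finite extensions, and the endomorphisms
    -- commuting with `F`
    (HalfMult X 1 → (∀ n, 0 < n → ∀ β, SemisimpleAt (X.F ^ n) β) ∧
      ∀ T : Module.End K V, Commute T X.F → ∃ Q : K[X], T = aeval X.F Q) ∧
    -- (3) the eigenvalues not divisible by `p^b`
    (∀ b α, X.F.HasEigenvalue α → ¬ Divisible p b α → ∃ β : PadicAlgCl p, ((p : ℝ) ^ b)⁻¹ < ‖β‖ ∧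
      mult X.F α = rootMultiplicity β (X.P.map (Int.castRingHom (PadicAlgCl p)))) ∧
    (∀ b m, ResMult p b X.P m → ∀ α, ¬ Divisible p b α → mult X.F α ≤ m ∧
      ∀ x ∈ X.F.maxGenEigenspace α, ((X.F - α • (1 : Module.End K V)) ^ m) x = 0) ∧
    (∀ b, ∀ Z : Finset K, (∀ z ∈ Z, X.F.HasEigenvalue z ∧ ¬ Divisible p b z) →
      (∀ z ∈ Z, ∀ z' ∈ Z, minpoly ℤ z = minpoly ℤ z' → z = z') →
      ∑ z ∈ Z, mult X.F z ≤ sides p b X.P) ∧
    -- (4) the eigenvalues of the middle slope `b = a w / 2`
    (∀ b, 2 * b = a * w → ∀ α, X.F.HasEigenvalue α →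
      (Divisible p b α ↔ ∃ m, 0 < m ∧ α ^ m = ((p : K) ^ b) ^ m)) ∧
    (∀ b m, 0 < m → ∀ α : K, α ^ m = ((p : K) ^ b) ^ m → ∃ ρ : AlgebraicClosure (ZMod p),
      ρ ^ m = 1 ∧ mult X.F α ≤ rootMultiplicity ρ
        ((side p b 1 X.P).map (algebraMap (ZMod p) (AlgebraicClosure (ZMod p))))) ∧
    (∀ b, rootMultiplicity 1 (side p b 1 X.P) ≤
        max 1 (finrank K (X.F.eigenspace ((p : K) ^ b))) → SemisimpleAt X.F ((p : K) ^ b)) := by
  classical
  have hp : p.Prime := Fact.out
  have hPm : X.P.Monic := by
    apply monic_of_injective (f := Int.castRingHom K) (RingHom.injective_int _)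
    rw [← X.charpoly_F]
    exact LinearMap.charpoly_monic _
  have hmult : ∀ α, mult X.F α = mu X.P α := by
    intro α
    unfold mult mu
    rw [LinearMap.finrank_maxGenEigenspace_eq, X.charpoly_F]
  have hroot : ∀ α, 0 < mult X.F α → aeval α X.P = 0 := by
    intro α h
    rw [hmult] at h
    unfold mu at h
    have h1 := (rootMultiplicity_pos (hPm.map _).ne_zero).1 h
    rw [IsRoot, eval_map] at h1
    rw [aeval_def]; exact h1
  have hroot' : ∀ α, X.F.HasEigenvalue α → aeval α X.P = 0 := by
    intro α h
    rw [Module.End.hasEigenvalue_iff_isRoot_charpoly, X.charpoly_F, IsRoot, eval_map] at h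
    rw [aeval_def]; exact h
  have hss : ∀ α, mult X.F α ≤ 1 → X.F.maxGenEigenspace α = X.F.eigenspace α := by
    intro α h
    apply eig_eq
    intro y v hy hv
    by_contra hv0
    have := two_le_of_jordan X.F hy hv hv0
    unfold mult at h
    omega
  have hH : ∀ m, HalfMult X m → ∀ α, mult X.F α ≤ m := by
    intro m hm α
    rcases Nat.eq_zero_or_pos (mult X.F α) with h0 | h0
    · rw [h0]; exact Nat.zero_le _
    obtain ⟨r, s, hrs, hs, hle, R, hR, ρ, hρ, h1⟩ := mult_middle hPm X.weight (hroot α h0)
    rw [hmult]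
    exact h1.trans (hm r s hrs hs hle R hR ρ hρ)
  have hB : ∀ b m, ResMult p b X.P m → ∀ α, ¬ Divisible p b α → mult X.F α ≤ m := by
    intro b m hm α hα
    rcases Nat.eq_zero_or_pos (mult X.F α) with h0 | h0
    · rw [h0]; exact Nat.zero_le _
    rw [hmult]
    exact mult_le_of_resMult hPm hm (hroot α h0) hα
  refine ⟨fun m hm α => ⟨hH m hm α, Y146.HW.pow_kills X.F α (hH m hm α)⟩, ?_, ?_, ?_,
    fun b m hm α hα => ⟨hB b m hm α hα, Y146.HW.pow_kills X.F α (hB b m hm α hα)⟩, ?_, ?_, ?_, ?_⟩
  · intro m hm r s hrs hs hle R hR ρ hρ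
    obtain ⟨hR0, i, hi⟩ := hR
    have hRne : R ≠ 0 := fun h0 => hR0 (by rw [h0, coeff_zero])
    have hexp : (expand (ZMod p) s R).natTrailingDegree = 0 := by
      apply Nat.le_zero.1
      apply natTrailingDegree_le_of_ne_zero
      have h4 := coeff_expand_mul hs R 0
      rw [zero_mul] at h4
      rw [h4]; exact hR0
    have hne : expand (ZMod p) s R ≠ 0 := (expand_ne_zero hs).2 hRne
    have hi' : (side p r s X.P).natTrailingDegree = i := by
      rw [hi, natTrailingDegree_mul (pow_ne_zero _ X_ne_zero) hne, hexp]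
      simp
    have h1 := len_eq hp hs hR0 (P := X.P) (by rw [hi']; exact hi)
    have h2 := hm r s hrs hs hle
    rw [h1] at h2
    have h3 : R.natDegree ≤ m := Nat.le_of_mul_le_mul_right h2 hs
    refine le_trans ?_ h3
    have h5 := (R.map (algebraMap (ZMod p) (AlgebraicClosure (ZMod p)))).card_roots'
    rw [natDegree_map] at h5
    refine le_trans ?_ h5
    rw [← count_roots]
    exact Multiset.count_le_card _ _
  · intro hs
    refine ⟨?_, ?_⟩
    · intro n hn β
      apply Y146.HW.maxGen_pow_eq
      intro α _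
      exact hss α (hH 1 hs α)
    · intro T hT
      set f := X.P.map (Int.castRingHom K) with hf
      obtain ⟨Q, hQ⟩ := Y146.HW.commutant X.F f.roots.toFinset (fun α _ => hH 1 hs α) T hT
      refine ⟨Q, ?_⟩
      have htop : ⨆ α ∈ f.roots.toFinset, X.F.maxGenEigenspace α = ⊤ := by
        rw [eq_top_iff, ← X.F.iSup_maxGenEigenspace_eq_top, iSup_le_iff]
        intro α
        by_cases hα : α ∈ f.roots.toFinset
        · exact le_iSup₂_of_le α hα le_rfl
        · have h0 : mult X.F α = 0 := by
            by_contra hne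
            apply hα
            rw [Multiset.mem_toFinset, mem_roots (hPm.map _).ne_zero, IsRoot, eval_map]
            exact hroot α (Nat.pos_of_ne_zero hne)
          unfold mult at h0
          rw [Submodule.finrank_eq_zero.1 h0]
          exact bot_le
      ext x
      exact hQ x (by rw [htop]; trivial)
  · intro b α hα hT
    obtain ⟨β, h1, h2⟩ := exists_padic hPm (hroot' α hα) hT
    exact ⟨β, h1, (hmult α).trans h2⟩
  · intro b Z hZ hd
    have e1 : ∑ z ∈ Z, mult X.F z = ∑ z ∈ Z, mu X.P z :=
      Finset.sum_congr rfl fun z _ => hmult z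
    rw [e1]
    exact sum_le_sides hp hPm Z (fun z hz => hroot' z (hZ z hz).1) hd (fun z hz => (hZ z hz).2)
  · intro b hb α hα
    constructor
    · intro hdiv
      by_contra hcon
      push Not at hcon
      refine not_integral hp ?_ (hroot' α hα) hcon hdiv
      intro z hz
      have h1 := X.weight z hz
      rw [← pow_mul, ← hb, mul_comm 2 b, pow_mul] at h1
      have hp0 : (0 : ℝ) ≤ (p : ℝ) ^ b := by positivity
      exact (pow_left_inj₀ (norm_nonneg _) hp0 two_ne_zero).1 h1
    · rintro ⟨m, hm, h⟩
      have h4 : (α / (p : K) ^ b) ^ m = 1 := by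
        rw [div_pow, h, div_self]
        exact pow_ne_zero _ (pow_ne_zero _ (by exact_mod_cast hp.ne_zero))
      exact IsIntegral.of_pow hm (by rw [h4]; exact isIntegral_one)
  · intro b m hm α hα
    rcases Nat.eq_zero_or_pos (mult X.F α) with h0 | h0
    · exact ⟨1, one_pow _, by rw [h0]; exact Nat.zero_le _⟩
    obtain ⟨ρ, h1, h2⟩ := mult_tate hm hPm (hroot α h0) hα
    exact ⟨ρ, h1, by rw [hmult]; exact h2⟩
  · intro b h
    have hle : mult X.F ((p : K) ^ b) ≤ max 1 (finrank K (X.F.eigenspace ((p : K) ^ b))) := by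
      refine le_trans ?_ h
      rcases Nat.eq_zero_or_pos (mult X.F ((p : K) ^ b)) with h0 | h0
      · rw [h0]; exact Nat.zero_le _
      obtain ⟨ρ, h1, h2⟩ := mult_tate one_pos hPm (hroot _ h0) rfl
      rw [pow_one] at h1
      subst h1
      rw [hmult]
      refine h2.trans (le_of_eq ?_)
      have h3 := (eq_rootMultiplicity_map (p := side p b 1 X.P)
        (algebraMap (ZMod p) (AlgebraicClosure (ZMod p))).injective (1 : ZMod p))
      rw [map_one] at h3
      exact h3.symm
    rcases le_max_iff.1 hle with h1 | h1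
    · exact hss _ h1
    · have hsub : X.F.eigenspace ((p : K) ^ b) ≤ X.F.maxGenEigenspace ((p : K) ^ b) :=
        Module.End.genEigenspace X.F ((p : K) ^ b) |>.monotone le_top
      exact (Submodule.eq_of_le_of_finrank_le hsub h1).symm

end Pool.Agent.Results.MP_93fb11_ag.MiddleSlope
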