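import Pool.Agent.Y101.Th.Fs
import Pool.Agent.Y101.Th.CycMain

/-!
# Semisimplicity of the Frobenius: systems of bilinear equations and trilinear hypersurfaces
-/

set_option autoImplicit false

open CategoryTheory AlgebraicGeometry Pool.Agent.Y116.UV Pool.Agent.Y101.Th

namespace Pool.Agent.Results.MP_93fb11_ag.TrilinearHypersurfaces

variable {k Ω : Type} [Field k] [Field Ω] {T : LowHomology k Ω}

/-- **Semisimplicity of the Frobenius and trilinear forms.** Let `k` be a finite field. The Frobenius
acts semisimply on `H^n(X, ℚ_ℓ)` for all smooth projective `X` over `k` and all `n` if and only if it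
acts semisimply on the part of the lowest weight of `H_n(B, ℚ_ℓ)` (Borel-Moore homology) for all systems
`B` of bilinear equations `∑_{j, l} t_ijl y_j z_l = 0`, if and only if it does so for all hypersurfaces
`∑ t_ijl x_i y_j z_l = 0`; over a prime field the coefficients `0` and `1` are sufficient. The systems
with `n + 1` variables `z` are sufficient for all closed subschemes of `𝔸^n`. -/
theorem result [Finite k] (hT : IsLowHomology T) :
    ((∀ X : Sch k, SmProj X → FrobSemisimple T X) ↔
      ∀ (a b c : ℕ) (t : Fin a → Fin b → Fin c → k), FrobSemisimple T (bilS t)) ∧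
    ((Nat.card k).Prime → ((∀ X : Sch k, SmProj X → FrobSemisimple T X) ↔
      ∀ (a b c : ℕ) (t : Fin a → Fin b → Fin c → k), (∀ i j l, t i j l = 0 ∨ t i j l = 1) →
        FrobSemisimple T (bilS t))) ∧
    (∀ n : ℕ, (∀ (a b : ℕ) (t : Fin a → Fin b → Fin (n + 1) → k), FrobSemisimple T (bilS t)) →
      ∀ I : Ideal (MvPolynomial (Fin n) k),
        FrobSemisimple T (aff k (MvPolynomial (Fin n) k ⧸ I))) ∧
    (LowCayley T →
      ((∀ X : Sch k, SmProj X → FrobSemisimple T X) ↔
        ∀ (a b c : ℕ) (t : Fin a → Fin b → Fin c → k), FrobSemisimple T (triS t)) ∧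
      ((Nat.card k).Prime → ((∀ X : Sch k, SmProj X → FrobSemisimple T X) ↔
        ∀ (a b c : ℕ) (t : Fin a → Fin b → Fin c → k), (∀ i j l, t i j l = 0 ∨ t i j l = 1) →
          FrobSemisimple T (triS t)))) := by
  have h1 : ∀ {h : ∀ (a b c : ℕ) (t : Fin a → Fin b → Fin c → k), FrobSemisimple T (bilS t)},
      ∀ X : Sch k, FT True X → FrobSemisimple T X := fun {h} X hX =>
    fs_all hT (S := Set.univ) trivial trivial (fun n => has_all trivial trivial has_const)
      (fun a b c t _ => h a b c t) X hX
  have h2 : (Nat.card k).Prime → (∀ (a b c : ℕ) (t : Fin a → Fin b → Fin c → k),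
      (∀ i j l, t i j l = 0 ∨ t i j l = 1) → FrobSemisimple T (bilS t)) →
      ∀ X : Sch k, FT True X → FrobSemisimple T X := fun hk h X hX =>
    fs_all hT (S := {0, 1}) (Or.inl rfl) (Or.inr rfl)
      (fun n => has_all (Or.inl rfl) (Or.inr rfl)
        (has_int (Or.inl rfl) (Or.inr rfl) (int_surj hk)))
      (fun a b c t ht => h a b c t ht) X hX
  refine ⟨⟨fun h a b c t => fs_smproj hT h _ (ft_aff True), fun h X hX => h1 (h := h) X hX.ft⟩,
    fun hk => ⟨fun h a b c t _ => fs_smproj hT h _ (ft_aff True), fun h X hX =>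
      h2 hk h X hX.ft⟩, fun n h I => ?_, fun hC =>
    ⟨⟨fun h a b c t => fs_smproj hT h _ (ft_aff True), fun h X hX =>
      h1 (h := fun a b c t => fs_tri hC t (h a b c t)) X hX.ft⟩,
      fun hk => ⟨fun h a b c t _ => fs_smproj hT h _ (ft_aff True), fun h X hX =>
        h2 hk (fun a b c t ht => fs_tri hC t (h a b c t ht)) X hX.ft⟩⟩⟩
  exact closed_of_bil (dn_fs hT) (S := Set.univ) trivial trivial
    (has_all trivial trivial has_const) (fun a b t _ => h a b t) I

end Pool.Agent.Results.MP_93fb11_ag.TrilinearHypersurfaces
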