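import Pool.Agent.Y138.ZO.Main

/-!
# Zero-one law for semisimplicity of Frobenius in families

Let `S` be a geometrically connected normal scheme of finite type and dimension `d` over the field
with `q` elements, and let `f : X ⟶ S` be smooth and projective. `D : FrobData G P` records the
fundamental group `G` of `S`, the closed points `P` of `S` with their degrees and Frobenius
elements, and the Chebotarev density theorem. For `r` in a finite set of degrees and `ℓ i` running
through all the primes different from the characteristic, `ρ r i` is the representation of `G` given
by the lisse sheaf of the cohomology groups `H^r(X_s, ℚ_ℓ)` of the fibres, of rank `b r`.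

The hypotheses are theorems of Deligne: the restriction of `ρ r i` to the geometric fundamental
group is semisimple, and the characteristic polynomials of the Frobenius elements are rational and
do not depend on `ℓ`.

Theorem: the following are equivalent.
1. For each degree and each prime there is a closed fibre with semisimple Frobenius.
2. There is a closed fibre for which Frobenius is semisimple for all degrees and all primes.
3. All the representations `ρ r i` of the arithmetic fundamental group are semisimple.
4. The closed fibres for which Frobenius is semisimple for all degrees and all primes have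
   Dirichlet density one.

So Frobenius is semisimple (for all degrees and primes) for no closed fibre, or for almost all.
-/

namespace Pool.Agent.Results.MP_93fb11_ag.ZeroOneLaw

open Pool.Agent.Y138.ZO

theorem result {G P : Type*} [Group G] [TopologicalSpace G] [IsTopologicalGroup G] [CompactSpace G]
    [TotallyDisconnectedSpace G] (D : FrobData G P) {R L : Type*} [Finite R]
    (ℓ : L → ℕ) [∀ i, Fact (ℓ i).Prime] (b : R → ℕ)
    (ρ : ∀ (r : R) (i : L), G →* Matrix (Fin (b r)) (Fin (b r)) ℚ_[ℓ i])
    (hρ : ∀ r i, Continuous (ρ r i))
    -- semisimplicity over the geometric fundamental group
    (hgeom : ∀ r i, IsSemisimpleRep (ρ r i) D.geom)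
    -- rationality and independence of the prime
    (a : R → P → ℕ → ℚ) (ha : ∀ r i s m, (ρ r i (D.frob s) ^ m).trace = (a r s m : ℚ_[ℓ i])) :
    List.TFAE [
      ∀ r i, ∃ s, Module.End.IsSemisimple (Matrix.toLin' (ρ r i (D.frob s))),
      ∃ s, ∀ r i, Module.End.IsSemisimple (Matrix.toLin' (ρ r i (D.frob s))),
      ∀ r i, IsSemisimpleRep (ρ r i) ⊤,
      HasDensity D.q D.d D.deg
        {s | ∀ r i, Module.End.IsSemisimple (Matrix.toLin' (ρ r i (D.frob s)))} 1] :=
  D.zero_one ℓ b ρ hρ hgeom a ha

end Pool.Agent.Results.MP_93fb11_ag.ZeroOneLaw
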